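import Pool.Agent.D0H98.Kik.Thresh
import Pool.Agent.D0H98.Kik.Two

/-!
# The rescaled spectral threshold of the Kikuchi matrix tends to zero exactly for the even orders at least 4
-/

set_option autoImplicit false

open Finset MeasureTheory ProbabilityTheory Filter
open scoped ENNReal

namespace Pool.Agent.Results.MP_d47e08_pr.ThresholdAllOrders

/-- The Kikuchi matrix `M(lam)` of order `r` and level `ℓ` on `n` points, for the noise `Z`: rows and
columns are the `ℓ`-subsets, the entry at `I, J` is `lam + Z (I Δ J)` if `|I Δ J| = r` and `0` otherwise. -/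
def kikuchi (n ℓ r : ℕ) (lam : ℝ) (Z : Finset (Fin n) → ℝ) :
    Matrix {K : Finset (Fin n) // K.card = ℓ} {K : Finset (Fin n) // K.card = ℓ} ℝ :=
  Matrix.of fun I J =>
    if (symmDiff I.1 J.1).card = r then lam + Z (symmDiff I.1 J.1) else 0

/-- The largest eigenvalue of a real symmetric matrix, as the supremum of its Rayleigh quotient. -/
noncomputable def lambdaMax {ι : Type} [Fintype ι] (M : Matrix ι ι ℝ) : ℝ :=
  sSup {t : ℝ | ∃ v : ι → ℝ, dotProduct v v = 1 ∧ t = dotProduct v (M.mulVec v)}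

/-- `E λ_max M(lam)`, the noise being i.i.d. standard Gaussian. -/
noncomputable def expMax (n ℓ r : ℕ) (lam : ℝ) : ℝ :=
  ∫ Z : Finset (Fin n) → ℝ, lambdaMax (kikuchi n ℓ r lam Z)
    ∂(Measure.pi fun _ : Finset (Fin n) => gaussianReal 0 1)

/-- `ρ_{r,ℓ}(μ) = liminf_n E λ_max M(μ n^(-r/4)) / E λ_max M(0)`. -/
noncomputable def rho (r ℓ : ℕ) (μ : ℝ) : EReal :=
  liminf (fun n : ℕ => ((expMax n ℓ r (μ * (n : ℝ) ^ (-(r : ℝ) / 4)) / expMax n ℓ r 0 : ℝ) : EReal))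
    atTop

/-- `μ♮_{r,ℓ} = inf {μ ≥ 0 : ρ_{r,ℓ}(μ) > 1}`, with `inf ∅ = ∞`. -/
noncomputable def threshold (r ℓ : ℕ) : ℝ≥0∞ :=
  ⨅ (μ : ℝ) (_ : 0 ≤ μ) (_ : 1 < rho r ℓ μ), ENNReal.ofReal μ

theorem threshold_le {k ℓ : ℕ} (hk : 1 ≤ k) (hkℓ : k ≤ ℓ) :
    threshold (2 * k) ℓ ≤ ENNReal.ofReal
      (16 * 2 ^ k * √(2 ^ k) * k.factorial * √((ℓ + 1) / ℓ.choose k)) := by
  have hC : 0 < (ℓ.choose k : ℝ) := by exact_mod_cast Nat.choose_pos hkℓ
  have hsC : 0 < √(ℓ.choose k : ℝ) := Real.sqrt_pos.2 hC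
  set μ : ℝ := 16 * 2 ^ k * √(2 ^ k) * k.factorial * √((ℓ + 1) / ℓ.choose k) with hμ
  have hμ0 : 0 ≤ μ := by rw [hμ]; positivity
  have h1 : D0H98.Kik.ck k * √((ℓ : ℝ) + 1) ≤ μ * √(ℓ.choose k) := by
    rw [hμ, Real.sqrt_div (by positivity)]
    unfold D0H98.Kik.ck
    refine le_of_eq ?_
    field_simp
  have h2 := D0H98.Kik.ratio_ge_two hk hkℓ h1
  have h3 : 1 < rho (2 * k) ℓ μ := by
    have h4 : (2 : EReal) ≤ rho (2 * k) ℓ μ := by
      unfold rho
      refine le_liminf_of_le (by isBoundedDefault) ?_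
      filter_upwards [h2] with n hn
      have : ((2 : ℝ) : EReal) ≤ ((expMax n ℓ (2 * k) (μ * (n : ℝ) ^ (-((2 * k : ℕ) : ℝ) / 4)) /
        expMax n ℓ (2 * k) 0 : ℝ) : EReal) := EReal.coe_le_coe_iff.2 hn
      exact this
    exact lt_of_lt_of_le (by norm_num) h4
  exact iInf_le_of_le μ (iInf_le_of_le hμ0 (iInf_le_of_le h3 le_rfl))

theorem four_le (k : ℕ) (hk : 2 ≤ k) :
    (∀ ℓ : ℕ, k ≤ ℓ → threshold (2 * k) ℓ ≤ ENNReal.ofReal
      (16 * 2 ^ k * √(2 ^ k) * k.factorial * √((ℓ + 1) / ℓ.choose k))) ∧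
    Tendsto (fun ℓ : ℕ => threshold (2 * k) ℓ) atTop (nhds 0) := by
  refine ⟨fun ℓ hℓ => threshold_le (by omega) hℓ, ?_⟩
  have hlim : Tendsto (fun ℓ : ℕ => ((ℓ : ℝ) + 1) / ℓ.choose k) atTop (nhds 0) := by
    have h1 : Tendsto (fun ℓ : ℕ => (k.factorial * 2 ^ (k + 1) : ℝ) / ℓ) atTop (nhds 0) :=
      tendsto_const_div_atTop_nhds_zero_nat _
    refine tendsto_of_tendsto_of_tendsto_of_le_of_le' tendsto_const_nhds h1 ?_ ?_
    · exact Eventually.of_forall fun ℓ => by positivity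
    · filter_upwards [eventually_ge_atTop (2 * k)] with ℓ hℓ
      have hC : 0 < (ℓ.choose k : ℝ) := by exact_mod_cast Nat.choose_pos (by omega : k ≤ ℓ)
      have hℓ0 : (0 : ℝ) < ℓ := by
        have : 0 < ℓ := by omega
        exact_mod_cast this
      rw [div_le_div_iff₀ hC hℓ0]
      have hch : ((ℓ : ℝ) / 2) ^ k ≤ k.factorial * (ℓ.choose k : ℝ) := by
        have e1 := Nat.pow_sub_le_descFactorial ℓ k
        rw [Nat.descFactorial_eq_factorial_mul_choose] at e1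
        have e2 : (((ℓ + 1 - k : ℕ) : ℝ)) ^ k ≤ k.factorial * (ℓ.choose k : ℝ) := by
          exact_mod_cast e1
        refine le_trans (pow_le_pow_left₀ (by positivity) ?_ k) e2
        rw [div_le_iff₀ (by norm_num)]
        have : ℓ ≤ (ℓ + 1 - k) * 2 := by omega
        exact_mod_cast this
      have h2 : (ℓ : ℝ) ^ 2 ≤ ℓ ^ k := pow_le_pow_right₀ (by
        have : 1 ≤ ℓ := by omega
        exact_mod_cast this) hk
      have h3 : (ℓ : ℝ) ^ k ≤ 2 ^ k * (k.factorial * (ℓ.choose k : ℝ)) := by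
        rw [div_pow, div_le_iff₀ (by positivity)] at hch
        linarith
      have h4 : (ℓ : ℝ) + 1 ≤ 2 * ℓ := by
        have : (1 : ℝ) ≤ ℓ := by
          have : 1 ≤ ℓ := by omega
          exact_mod_cast this
        linarith
      calc ((ℓ : ℝ) + 1) * ℓ ≤ 2 * ℓ * ℓ := mul_le_mul_of_nonneg_right h4 hℓ0.le
        _ = 2 * (ℓ : ℝ) ^ 2 := by ring
        _ ≤ 2 * (2 ^ k * (k.factorial * (ℓ.choose k : ℝ))) := by linarith
        _ = k.factorial * 2 ^ (k + 1) * (ℓ.choose k : ℝ) := by ring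
  have hlim2 : Tendsto (fun ℓ : ℕ => ENNReal.ofReal
      (16 * 2 ^ k * √(2 ^ k) * k.factorial * √(((ℓ : ℝ) + 1) / ℓ.choose k))) atTop (nhds 0) := by
    have h1 : Tendsto (fun ℓ : ℕ => 16 * 2 ^ k * √(2 ^ k) * k.factorial *
        √(((ℓ : ℝ) + 1) / ℓ.choose k)) atTop (nhds (16 * 2 ^ k * √(2 ^ k) * k.factorial * √0)) :=
      ((Real.continuous_sqrt.tendsto 0).comp hlim).const_mul _
    rw [Real.sqrt_zero, mul_zero] at h1
    have h2 := ENNReal.tendsto_ofReal h1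
    rwa [ENNReal.ofReal_zero] at h2
  refine tendsto_of_tendsto_of_tendsto_of_le_of_le' tendsto_const_nhds hlim2 ?_ ?_
  · exact Eventually.of_forall fun ℓ => bot_le
  · filter_upwards [eventually_ge_atTop k] with ℓ hℓ
    exact threshold_le (by omega) hℓ

/-- for the order two the threshold is at least one -/
theorem one_le_threshold {ℓ : ℕ} (hℓ : 1 ≤ ℓ) : 1 ≤ threshold 2 ℓ := by
  unfold threshold
  refine le_iInf fun μ => le_iInf fun hμ0 => le_iInf fun hμ => ?_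
  by_contra hcon
  push Not at hcon
  have hμ1 : μ < 1 := by
    by_contra h
    push Not at h
    have : ENNReal.ofReal 1 ≤ ENNReal.ofReal μ := ENNReal.ofReal_le_ofReal h
    rw [ENNReal.ofReal_one] at this
    exact absurd hcon (not_lt.2 this)
  -- `rho ≤ 1 + ε` for every `ε`
  have h1 : ∀ ε : ℝ, 0 < ε → rho 2 ℓ μ ≤ ((1 + ε : ℝ) : EReal) := by
    intro ε hε
    unfold rho
    refine liminf_le_of_frequently_le' (Eventually.frequently ?_)
    filter_upwards [D0H98.Kik.ratio_two hℓ hε] with n hn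
    have hc0 : 0 ≤ μ * (√(n : ℝ))⁻¹ := by positivity
    have hc1 : μ * (√(n : ℝ))⁻¹ ≤ (√(n : ℝ))⁻¹ :=
      mul_le_of_le_one_left (by positivity) hμ1.le
    have h2 := hn _ hc0 hc1
    rw [← D0H98.Kik.rpow_half] at h2
    exact EReal.coe_le_coe_iff.2 h2.le
  obtain ⟨q, hq1, hq2⟩ := EReal.lt_iff_exists_real_btwn.1 hμ
  have hq3 : (1 : ℝ) < q := by
    have : ((1 : ℝ) : EReal) < (q : EReal) := hq1
    exact EReal.coe_lt_coe_iff.1 this
  have h3 := h1 (q - 1) (by linarith)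
  have h4 : (1 + (q - 1) : ℝ) = q := by ring
  rw [h4] at h3
  exact absurd hq2 (not_lt.2 h3)

/-- The rescaled spectral threshold of the Kikuchi matrix of even order `2k` tends to `0` as
`ℓ → ∞` for every `k ≥ 2`, with an explicit bound of order `ℓ^(-(k-1)/2)` valid for every `ℓ ≥ k`;
for the order `2` it is at least `1` for every `ℓ ≥ 1`. -/
theorem result :
    (∀ k : ℕ, 2 ≤ k →
      (∀ ℓ : ℕ, k ≤ ℓ → threshold (2 * k) ℓ ≤ ENNReal.ofReal
        (16 * 2 ^ k * √(2 ^ k) * k.factorial * √((ℓ + 1) / ℓ.choose k))) ∧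
      Tendsto (fun ℓ : ℕ => threshold (2 * k) ℓ) atTop (nhds 0)) ∧
    (∀ ℓ : ℕ, 1 ≤ ℓ → 1 ≤ threshold 2 ℓ) :=
  ⟨four_le, fun _ hℓ => one_le_threshold hℓ⟩

end Pool.Agent.Results.MP_d47e08_pr.ThresholdAllOrders
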